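import Pool.Agent.ZH17.NPI.Proof

/-!
# A contractible compact two-complex that does not have non-positive immersions

Let `X` be the presentation complex of `⟨x, y | x y x = y x y, x⟩`.  It is contractible, so it is
aspherical with second L2 Betti number `0`.  The group of the first relator is the trefoil group; it
acts on three points, `x` exchanging `0` and `1` and fixing `2`, and `y` exchanging `1` and `2` and
fixing `0`.  The corresponding 3-fold covering of the complex of the first relator has Euler
characteristic `0`.  Attach a 2-cell along the lift of `x` at the point `2`.  The result immerses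
into `X`, it has Euler characteristic `1`, and its fundamental group is infinite cyclic.  Its `n`-fold
coverings have Euler characteristic `n`.
-/

set_option autoImplicit false

namespace Pool.Agent.Results.MP_3e52c6_al.ContractibleNotNPI

open Pool.Agent.ZH17.NPI

/-- There is a compact contractible two-complex `X`, with second L2 Betti number `0`, such that for
every `n ≥ 1` there is a combinatorial immersion of a compact connected two-complex `Y` with
`χ(Y) = n` and nontrivial fundamental group into `X`.  So non-positive immersions are not equivalent
to the vanishing of the second L2 Betti number for compact aspherical two-complexes. -/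
theorem result :
    (∃ X : TwoComplex, X.Compact ∧ X.Contractible ∧ X.Aspherical ∧ X.IsSecondL2Betti 0 ∧
      ∀ n : ℕ, 1 ≤ n → ∃ (Y : TwoComplex) (φ : TwoComplex.Hom Y X), φ.IsImmersion ∧
        Y.Compact ∧ Y.Connected ∧ Y.euler = n ∧ ¬ Y.TrivialPi1) ∧
    ¬ Question := by
  refine ⟨⟨X0, X0_compact, X0_contractible, X0_aspherical, X0_betti, fun n hn => ?_⟩, fun h => ?_⟩
  · have : NeZero n := ⟨by omega⟩
    exact ⟨Yn n, phin n, phin_immersion n, Yn_compact n, Yn_connected n, Yn_euler n,
      Yn_not_trivial n⟩
  · exact X0_not_npi ((h X0 X0_connected X0_compact X0_aspherical 0 X0_betti).2 rfl)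

end Pool.Agent.Results.MP_3e52c6_al.ContractibleNotNPI
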