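import Pool.Agent.ZH17.IN.MainQ

/-!
# The Isaacs-Navarro congruences are decided by one residue modulo a prime `q`

Let `p` be an odd prime and `q` any prime which does not divide `p (p - 1) / 2` (for instance any prime
`q > p`; `q = 2` is allowed if `p ≡ 3` modulo `4`). Question Q1 has a positive answer for the prime `p` and
all finite groups if and only if for every finite group `G` with Sylow `p`-subgroup `P` the numbers
of the irreducible characters `χ` of `G` and of `N_G(P)` with `χ(1) ≡ ±1` modulo `p`, whose field of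
values `ℚ(χ)` has degree prime to `q` over `ℚ`, are congruent modulo `q`. The same holds for all classes of
groups closed under `G ↦ G ≀ C_q` and `G ↦ G × AGL(1, r)`, `r` prime, `p ∤ r (r - 1)`.

Proof. For a degree class `c`, an element of `A = F_p^× / {±1}`, let `D_G(c)` be the number of the
irreducible characters of `G` with degree in `c` minus the number for `N_G(P)`.
* `AGL(1, r)` has a character of degree `r - 1` and otherwise linear characters, `k` say. Hence
  `D_{G × AGL(1, r)}(1) = D_G(1 / (r - 1)) + k D_G(1)`, and `r - 1` can be any class by Dirichlet's theorem. So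
  if `D(1)` is always divisible by `q` then so are all `D(c)`.
* The irreducible characters of `G ≀ C_q` are the characters of degree `q ∏ θ_i(1)` induced from the
  nonconstant `q`-tuples `θ` of irreducible characters of `G`, up to cyclic shifts, and `q` extensions of
  `θ ⊗ ⋯ ⊗ θ` for each `θ`. The Sylow `p`-subgroup `P^q` has the normalizer `N_G(P) ≀ C_q`. In the group ring
  `ℤ[A]`, for `d = ∑ D_G(c) [c]`, this shows that if `q^j` divides all the `D`, then `q^(j+1)` divides
  the image of `d` under `[c] ↦ [c^q]`, because `x^q - y^q` is divisible by `q^(j+1)` if `x - y` is divisible by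
  `q^j`. As `q` does not divide `|A| = (p - 1) / 2` the map `c ↦ c^q` is a bijection of `A`, and all the
  `D` are divisible by `q^(j+1)`. Hence they are zero.
* In a Galois stable set of characters the ones with `q ∣ |ℚ(χ) : ℚ|` come in orbits of length divisible
  by `q`.
-/

set_option autoImplicit false

open scoped Classical

noncomputable section

namespace Pool.Agent.Results.MP_5ecade_al.OneResidueDecides

open Pool.Agent.ZH17.IN (Wq Aff)

/-- `χ` is the character of an irreducible complex representation of `G`. -/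
def IsIrr {G : Type} [Group G] (χ : G → ℂ) : Prop :=
  ∃ (V : Type) (_ : AddCommGroup V) (_ : Module ℂ V) (_ : FiniteDimensional ℂ V)
    (ρ : Representation ℂ G V), ρ.IsIrreducible ∧ χ = ρ.character

/-- The set `Irr_{p'}(G)` of the irreducible characters of `G` of degree prime to `p`. -/
def IrrP (p : ℕ) (G : Type) [Group G] : Type :=
  {χ : G → ℂ // IsIrr χ ∧ ∃ d : ℕ, χ 1 = (d : ℂ) ∧ ¬ p ∣ d}

/-- The normalizer of a Sylow subgroup. -/
abbrev N {p : ℕ} {G : Type} [Group G] (P : Sylow p G) : Subgroup G :=
  Subgroup.normalizer ((P : Subgroup G) : Set G)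

/-- The bijection of Q1 for `G` and `P`: from `Irr_{p'}(G)` onto `Irr_{p'}(N_G(P))` with degrees congruent
up to sign modulo `p`. -/
def HasBijection {p : ℕ} {G : Type} [Group G] (P : Sylow p G) : Prop :=
  ∃ e : IrrP p G ≃ IrrP p (N P), ∀ (χ : IrrP p G) (m n : ℕ), χ.1 1 = (m : ℂ) → (e χ).1 1 = (n : ℂ) →
    (m : ℤ) ≡ n [ZMOD p] ∨ (m : ℤ) ≡ -n [ZMOD p]

/-- The degree of `χ` is congruent to `1` or `-1` modulo `p`. -/
def DegOne (p : ℕ) {G : Type} [Group G] (χ : G → ℂ) : Prop :=
  ∃ d : ℕ, χ 1 = (d : ℂ) ∧ ((d : ℤ) ≡ 1 [ZMOD p] ∨ (d : ℤ) ≡ -1 [ZMOD p])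

/-- The number of the irreducible characters of `G` of degree `±1` modulo `p`. -/
def num (p : ℕ) (G : Type) [Group G] : ℕ :=
  Nat.card {χ : G → ℂ // IsIrr χ ∧ DegOne p χ}

/-- The number of the irreducible characters of `G` of degree `±1` modulo `p` whose field of values
`ℚ(χ)` has degree prime to `q` over `ℚ`. -/
def numF (p q : ℕ) (G : Type) [Group G] : ℕ :=
  Nat.card {χ : G → ℂ // IsIrr χ ∧ DegOne p χ ∧
    ¬ q ∣ Module.finrank ℚ (IntermediateField.adjoin ℚ (Set.range χ))}

/-- The class `X` of groups is closed under `G ↦ G ≀ C_q`, and under `G ↦ G × AGL(1, r)` for the primes `r`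
such that `p` does not divide the order `r (r - 1)` of `AGL(1, r)`. Here `Wq q G` is the wreath product
`G ≀ C_q` (Pool/Agent/ZH17/IN/Wq.lean) and `Aff r` is the group `AGL(1, r)` of the affine maps
`x ↦ a x + b` of the field with `r` elements (Pool/Agent/ZH17/IN/Aff.lean). -/
structure Closed (p q : ℕ) (X : ∀ (G : Type) [Group G], Prop) : Prop where
  wreath : ∀ (G : Type) [Group G] [Finite G], X G → X (Wq q G)
  affine : ∀ (G : Type) [Group G] [Finite G] (r : ℕ), r.Prime → ¬ p ∣ r * (r - 1) → X G →
    X (G × Aff r)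

section

open Pool.Agent.ZH17.IN

variable {p : ℕ} [hp : Fact p.Prime]

theorem sq_iff (m n : ℕ) : (m : ZMod p) ^ 2 = (n : ZMod p) ^ 2 ↔
    ((m : ℤ) ≡ n [ZMOD p] ∨ (m : ℤ) ≡ -n [ZMOD p]) := by
  rw [← ZMod.intCast_eq_intCast_iff, ← ZMod.intCast_eq_intCast_iff, sq_eq_sq_iff_eq_or_eq_neg]
  push_cast
  rfl

theorem degOne_iff {G : Type} [Group G] [Finite G] {χ : G → ℂ} (h : IsIrr χ) :
    DegOne p χ ↔ v p 2 χ = 1 := by
  have h1 : χ 1 = dg χ := dg_spec h
  have h2 : v p 2 χ = 1 ↔ ((dg χ : ℤ) ≡ 1 [ZMOD p] ∨ (dg χ : ℤ) ≡ -1 [ZMOD p]) := by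
    have h3 := sq_iff (p := p) (dg χ) 1
    rw [Nat.cast_one, Nat.cast_one, one_pow] at h3
    exact h3
  rw [h2]
  constructor
  · rintro ⟨d, hd, h3⟩
    rw [h1] at hd
    have h4 : dg χ = d := by exact_mod_cast hd
    rw [h4]
    exact h3
  · intro h3
    exact ⟨dg χ, h1, h3⟩

theorem num_eq (G : Type) [Group G] [Finite G] : num p G = cnt p 2 1 G := by
  unfold num cnt
  exact Nat.card_congr (Equiv.subtypeEquivRight fun χ => and_congr_right fun h => degOne_iff h)

theorem numF_mod (q : ℕ) (G : Type) [Group G] [Finite G] : num p G ≡ numF p q G [MOD q] := by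
  rw [num_eq]
  refine (cnt_mod q).trans ?_
  have e1 : numF p q G = Nat.card {χ : G → ℂ // Pool.Agent.Helper884.IC.IsIrrChar χ ∧ v p 2 χ = 1 ∧
      ¬ q ∣ Module.finrank ℚ (fieldOf χ)} := by
    unfold numF
    exact Nat.card_congr (Equiv.subtypeEquivRight fun χ => and_congr_right fun h =>
      and_congr_left fun _ => degOne_iff h)
  rw [e1]

theorem hasBijection_iff {G : Type} [Group G] [Finite G] (P : Sylow p G) :
    HasBijection P ↔ ∀ c : ZMod p, c ≠ 0 → cnt p 2 c G = cnt p 2 c (N P) := by
  rw [← bij_iff two_ne_zero]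
  constructor
  · rintro ⟨f, hf⟩
    refine ⟨f, fun χ => ?_⟩
    have h1 : χ.1 1 = dg χ.1 := dg_spec χ.2.1
    have h2 : (f χ).1 1 = dg (f χ).1 := dg_spec (f χ).2.1
    exact ((sq_iff _ _).mpr (hf χ _ _ h1 h2)).symm
  · rintro ⟨f, hf⟩
    refine ⟨f, fun χ m n hm hn => ?_⟩
    rw [← sq_iff]
    exact (congrArg (fun k : ℕ => (k : ZMod p) ^ 2) (dg_eq hm)).symm.trans
      ((hf χ).symm.trans (congrArg (fun k : ℕ => (k : ZMod p) ^ 2) (dg_eq hn)))

end

/-- **The Isaacs-Navarro congruences are decided by one residue modulo a prime `q`.** Let `p` and `q` be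
different primes such that `q` does not divide `(p - 1) / 2` (so `p` is odd), and let `X` be a class of
groups, for instance the class of all groups, which is closed under `G ↦ G ≀ C_q` and
`G ↦ G × AGL(1, r)`, `r` prime with `p ∤ r (r - 1)`. The following are equivalent.
* Question Q1 has a positive answer for `p` and all finite groups in `X`.
* For all finite groups `G` in `X` with Sylow `p`-subgroup `P` the groups `G` and `N_G(P)` have the same
  number of irreducible characters of degree `±1` modulo `p`.
* For all these `G` and `P` the numbers of the irreducible characters of degree `±1` modulo `p` whose field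
  of values has degree prime to `q` over `ℚ`, for `G` and for `N_G(P)`, are congruent modulo `q`. -/
theorem result (p q : ℕ) [Fact p.Prime] [Fact q.Prime] (hqp : q ≠ p) (hq : ¬ q ∣ (p - 1) / 2)
    (X : ∀ (G : Type) [Group G], Prop) (hX : Closed p q X) :
    List.TFAE [∀ (G : Type) [Group G] [Finite G] (P : Sylow p G), X G → HasBijection P,
      ∀ (G : Type) [Group G] [Finite G] (P : Sylow p G), X G → num p G = num p (N P),
      ∀ (G : Type) [Group G] [Finite G] (P : Sylow p G), X G →
        numF p q G ≡ numF p q (N P) [MOD q]] := by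
  have hp : p.Prime := Fact.out
  have hp2 : p ≠ 2 := by
    rintro rfl
    exact hq (dvd_zero q)
  have heu : p - 1 = 2 * ((p - 1) / 2) := by
    obtain ⟨k, hk⟩ := hp.odd_of_ne_two hp2
    omega
  tfae_have 1 → 2 := by
    intro h G _ _ P hG
    rw [num_eq, num_eq]
    exact (hasBijection_iff P).mp (h G P hG) 1 one_ne_zero
  tfae_have 2 → 3 := by
    intro h G _ _ P hG
    have h1 : num p G ≡ num p (N P) [MOD q] := by rw [h G P hG]
    exact ((numF_mod q G).symm.trans h1).trans (numF_mod q (N P))
  tfae_have 3 → 1 := by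
    intro h G _ _ P hG
    rw [hasBijection_iff]
    intro c hc
    refine Pool.Agent.ZH17.IN.mod_all (q := q) hqp.symm even_two heu hq
      ⟨hX.wreath, hX.affine⟩ ?_ G P hG c hc
    intro K _ _ Q hK
    have h1 := ((numF_mod (p := p) q K).trans (h K Q hK)).trans (numF_mod q (N Q)).symm
    rw [num_eq, num_eq] at h1
    exact h1
  tfae_finish

end Pool.Agent.Results.MP_5ecade_al.OneResidueDecides
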